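import Pool.Agent.H92.EZ.Targets

/-!
# Board `ez_modules`, row V1: area of a planar annulus
-/

set_option autoImplicit false

namespace Pool.Agent.H14.EZ

open MeasureTheory Set
open scoped ENNReal NNReal RealInnerProductSpace
open Pool.Agent.H83.LS Pool.Agent.H92.EZ

namespace V1

/-- the area of an annulus -/
theorem annulus (q₁ q₂ : ℝ) (h : q₁ ≤ q₂) :
    volume {y : EE 2 | q₁ ≤ ‖y‖ ^ 2 ∧ ‖y‖ ^ 2 ≤ q₂} ≤ ENNReal.ofReal (Real.pi * (q₂ - q₁)) := by
  have hpi := Real.pi_pos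
  rcases lt_or_ge q₂ 0 with h2 | h2
  · have e : {y : EE 2 | q₁ ≤ ‖y‖ ^ 2 ∧ ‖y‖ ^ 2 ≤ q₂} = ∅ := by
      ext y
      simp only [mem_setOf_eq, mem_empty_iff_false, iff_false, not_and, not_le]
      intro _
      have : 0 ≤ ‖y‖ ^ 2 := by positivity
      linarith
    rw [e, measure_empty]
    exact zero_le
  have hv2 : volume (Metric.closedBall (0 : EE 2) (Real.sqrt q₂)) =
      ENNReal.ofReal (Real.pi * q₂) := by
    rw [EuclideanSpace.volume_closedBall_fin_two, ← ENNReal.ofReal_pow (Real.sqrt_nonneg _),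
      Real.sq_sqrt h2, ← NNReal.coe_real_pi]
    rw [ENNReal.ofReal_mul (NNReal.coe_nonneg _), ENNReal.ofReal_coe_nnreal, mul_comm]
  have hsub : {y : EE 2 | q₁ ≤ ‖y‖ ^ 2 ∧ ‖y‖ ^ 2 ≤ q₂} ⊆
      Metric.closedBall (0 : EE 2) (Real.sqrt q₂) := by
    intro y hy
    rw [Metric.mem_closedBall, dist_zero_right]
    exact Real.le_sqrt_of_sq_le hy.2
  rcases le_or_gt q₁ 0 with h1 | h1
  · refine (measure_mono hsub).trans ?_
    rw [hv2]
    apply ENNReal.ofReal_le_ofReal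
    nlinarith
  · have hv1 : volume (Metric.ball (0 : EE 2) (Real.sqrt q₁)) =
        ENNReal.ofReal (Real.pi * q₁) := by
      rw [EuclideanSpace.volume_ball_fin_two, ← ENNReal.ofReal_pow (Real.sqrt_nonneg _),
        Real.sq_sqrt h1.le, ← NNReal.coe_real_pi]
      rw [ENNReal.ofReal_mul (NNReal.coe_nonneg _), ENNReal.ofReal_coe_nnreal, mul_comm]
    have hsub2 : {y : EE 2 | q₁ ≤ ‖y‖ ^ 2 ∧ ‖y‖ ^ 2 ≤ q₂} ⊆
        Metric.closedBall (0 : EE 2) (Real.sqrt q₂) \ Metric.ball (0 : EE 2) (Real.sqrt q₁) := by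
      intro y hy
      refine ⟨hsub hy, fun hb => ?_⟩
      rw [Metric.mem_ball, dist_zero_right] at hb
      have h3 : ‖y‖ ^ 2 < q₁ := by
        calc ‖y‖ ^ 2 < Real.sqrt q₁ ^ 2 := by
              exact pow_lt_pow_left₀ hb (norm_nonneg _) two_ne_zero
          _ = q₁ := Real.sq_sqrt h1.le
      linarith [hy.1]
    refine (measure_mono hsub2).trans ?_
    rw [measure_sdiff ?_ measurableSet_ball.nullMeasurableSet ?_, hv1, hv2,
      ← ENNReal.ofReal_sub _ (by positivity)]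
    · apply ENNReal.ofReal_le_ofReal
      linarith
    · exact Metric.ball_subset_closedBall.trans
        (Metric.closedBall_subset_closedBall (Real.sqrt_le_sqrt h))
    · rw [hv1]
      exact ENNReal.ofReal_ne_top

end V1

theorem pf_V1 : T_V1 := by
  intro α c ν β hα hν
  have ha : 0 < |α| := abs_pos.2 hα
  obtain ⟨b, hb⟩ : ∃ b : EE 2, b = (2 * α)⁻¹ • β := ⟨_, rfl⟩
  obtain ⟨q, hq⟩ : ∃ q : ℝ, q = ‖b‖ ^ 2 - c / α := ⟨_, rfl⟩
  have key : ∀ y : EE 2, α * ‖y‖ ^ 2 + ⟪y, β⟫ + c = α * (‖y + b‖ ^ 2 - q) := by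
    intro y
    have h1 : ⟪y, b⟫ = (2 * α)⁻¹ * ⟪y, β⟫ := by
      rw [hb, real_inner_smul_right]
    rw [@norm_add_sq_real, h1, hq]
    field_simp
    ring
  have hsub : {y : EE 2 | |α * ‖y‖ ^ 2 + ⟪y, β⟫ + c| ≤ ν} =
      (fun y => y + b) ⁻¹' {y : EE 2 | q - ν / |α| ≤ ‖y‖ ^ 2 ∧ ‖y‖ ^ 2 ≤ q + ν / |α|} := by
    ext y
    simp only [mem_setOf_eq, mem_preimage]
    rw [key, abs_mul, mul_comm, ← le_div_iff₀ ha, abs_le]
    constructor
    · intro h
      constructor <;> linarith [h.1, h.2]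
    · intro h
      constructor <;> linarith [h.1, h.2]
  rw [hsub, measure_preimage_add_right]
  have hn : 0 ≤ ν / |α| := by positivity
  refine (V1.annulus _ _ (by linarith)).trans (le_of_eq ?_)
  congr 1
  ring

end Pool.Agent.H14.EZ
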