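import Pool.Agent.H92.EZ.Targets
import Pool.Agent.H54.LS.Sph

/-!
# Board `ez_modules`, row V2: volume of a spherical shell in a ball
-/

set_option autoImplicit false

namespace Pool.Agent.H14.EZ

open MeasureTheory Set
open scoped ENNReal NNReal RealInnerProductSpace
open Pool.Agent.H83.LS Pool.Agent.H92.EZ
open Pool.Agent.H54.LS (jo_last pr_jo jo_norm_sq mp_jo inner_eq)

theorem pf_V2 (V1 : T_V1) : T_V2 := by
  intro α c ν D β hα hν hD
  have hS : MeasurableSet {x : EE 3 | ‖x‖ ≤ D ∧ |α * ‖x‖ ^ 2 + ⟪x, β⟫ + c| ≤ ν} := by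
    have h1 : IsClosed {x : EE 3 | ‖x‖ ≤ D} := isClosed_le continuous_norm continuous_const
    have h2 : IsClosed {x : EE 3 | |α * ‖x‖ ^ 2 + ⟪x, β⟫ + c| ≤ ν} :=
      isClosed_le (by fun_prop) continuous_const
    exact (h1.inter h2).measurableSet
  rw [← (mp_jo 2).measure_preimage hS.nullMeasurableSet]
  have hT : MeasurableSet ((fun q : EE 2 × ℝ => jo q.1 q.2) ⁻¹'
      {x : EE 3 | ‖x‖ ≤ D ∧ |α * ‖x‖ ^ 2 + ⟪x, β⟫ + c| ≤ ν}) := (mp_jo 2).measurable hS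
  rw [Measure.prod_apply_symm hT]
  have hsl : ∀ u : ℝ, volume ((fun y : EE 2 => (y, u)) ⁻¹' ((fun q : EE 2 × ℝ => jo q.1 q.2) ⁻¹'
      {x : EE 3 | ‖x‖ ≤ D ∧ |α * ‖x‖ ^ 2 + ⟪x, β⟫ + c| ≤ ν})) ≤
      (Icc (-D) D).indicator (fun _ => ENNReal.ofReal (2 * Real.pi * ν / |α|)) u := by
    intro u
    by_cases hu : u ∈ Icc (-D) D
    · rw [indicator_of_mem hu]
      refine le_trans (measure_mono ?_) (V1 α (α * u ^ 2 + u * β (Fin.last 2) + c) ν
        (pr β) hα hν)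
      intro y hy
      have h1 : |α * ‖jo y u‖ ^ 2 + ⟪jo y u, β⟫ + c| ≤ ν := hy.2
      rw [jo_norm_sq, inner_eq, pr_jo, jo_last] at h1
      show |α * ‖y‖ ^ 2 + ⟪y, pr β⟫ + (α * u ^ 2 + u * β (Fin.last 2) + c)| ≤ ν
      refine le_trans (le_of_eq ?_) h1
      congr 1
      ring
    · have e : ((fun y : EE 2 => (y, u)) ⁻¹' ((fun q : EE 2 × ℝ => jo q.1 q.2) ⁻¹'
          {x : EE 3 | ‖x‖ ≤ D ∧ |α * ‖x‖ ^ 2 + ⟪x, β⟫ + c| ≤ ν})) = ∅ := by
        ext y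
        simp only [mem_preimage, mem_setOf_eq, mem_empty_iff_false, iff_false, not_and]
        intro hn _
        apply hu
        have h1 : ‖jo y u‖ ^ 2 = ‖y‖ ^ 2 + u ^ 2 := jo_norm_sq y u
        have h2 : u ^ 2 ≤ D ^ 2 := by
          have h3 : ‖jo y u‖ ^ 2 ≤ D ^ 2 := pow_le_pow_left₀ (norm_nonneg _) hn 2
          have h4 : 0 ≤ ‖y‖ ^ 2 := by positivity
          linarith
        exact abs_le.1 (abs_le_of_sq_le_sq h2 hD)
      rw [e, measure_empty]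
      exact zero_le
  refine (lintegral_mono hsl).trans ?_
  rw [lintegral_indicator measurableSet_Icc, setLIntegral_const, Real.volume_Icc,
    ← ENNReal.ofReal_mul (by positivity)]
  apply ENNReal.ofReal_le_ofReal
  apply le_of_eq
  ring

end Pool.Agent.H14.EZ
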